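import Pool.Agent.Helper44.Gkdv.Main

/-!
# No `H¹` blow-up residue below the rate `3/7` for the critical gKdV equation

We consider `u_t + (u_xx + u^5)_x = 0` on the real line.

* `InH1 f g`: `f` is in `H¹(ℝ)` and `g` is its weak derivative.
* `ClassicalSol τ V`: `V` is a smooth solution on `[0,τ]`, rapidly decaying in space together with
  all its space derivatives, uniformly in time.
* `EnergySol T u du`: `u` is a solution in `C([0,T), H¹)` (with `du = u_x`): it is, on each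
  `[0,τ]` with `τ < T`, a limit in `C([0,τ], H¹)` of classical solutions. This is the class given
  by the Cauchy theory in `H¹`.
* `BlowsUpAt T x0 u du`: blow-up at time `T` at the finite point `x0`: the rescaled solution
  tends to `± Q` weakly in `H¹` with scale tending to `0` and centre tending to `x0`.
* `HasH1Residue T u`: for some scale, centre and sign the remainder tends in `L²`, as `t → T`, to
  some `r` in `H¹`.
* `PowerRate T ν du`: `‖u_x(t)‖` is comparable with `(T - t)^{-ν}`.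

The theorem: a solution blowing up at a finite point with a power rate `1/3 < ν < 3/7` never has
a blow-up residue in `H¹`, whatever scale, centre and sign are chosen.
-/

set_option autoImplicit false
set_option maxHeartbeats 4000000

open MeasureTheory Set Filter Topology Real
open scoped ContDiff

namespace Pool.Agent.Results.MP_ce6cf9_an.NoResidue

/-- `f ∈ H¹(ℝ)` with weak derivative `g`: both are square integrable and `f` is a primitive
of `g`. -/
structure InH1 (f g : ℝ → ℝ) : Prop where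
  mem : MemLp f 2 volume
  mem' : MemLp g 2 volume
  ftc : ∀ x y, f y - f x = ∫ s in x..y, g s

/-- A smooth rapidly decaying solution of `V_t + (V_xx + V^5)_x = 0` on the time interval
`[0, τ]`. -/
structure ClassicalSol (τ : ℝ) (V : ℝ → ℝ → ℝ) : Prop where
  smooth : ContDiff ℝ ∞ (fun p : ℝ × ℝ => V p.1 p.2)
  decay : ∀ k m : ℕ, ∃ C : ℝ, ∀ t ∈ Icc 0 τ, ∀ x, |x| ^ m * |iteratedDeriv k (V t) x| ≤ C
  eqn : ∀ t ∈ Icc 0 τ, ∀ x,
    deriv (fun s => V s x) t + deriv (fun y => iteratedDeriv 2 (V t) y + V t y ^ 5) x = 0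

/-- A solution in `C([0,T), H¹)` of the equation, with space derivative `du`: on every compact
subinterval it is a uniform limit in `H¹` of classical solutions. -/
structure EnergySol (T : ℝ) (u du : ℝ → ℝ → ℝ) : Prop where
  h1 : ∀ t ∈ Ico 0 T, InH1 (u t) (du t)
  approx : ∀ τ ∈ Ico 0 T, ∀ ε > 0, ∃ V, ClassicalSol τ V ∧ ∀ t ∈ Icc 0 τ,
    (∫ x, (V t x - u t x) ^ 2) + ∫ x, (deriv (V t) x - du t x) ^ 2 ≤ ε

/-- The ground state `Q(x) = (3 sech²(2x))^{1/4}`. -/
noncomputable def Q (x : ℝ) : ℝ := (3 / cosh (2 * x) ^ 2) ^ (1 / 4 : ℝ)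

/-- The bubble `l^{-1/2} Q((x - s)/l)`. -/
noncomputable def bubble (l s x : ℝ) : ℝ := Q ((x - s) / l) / √l

/-- Blow-up at time `T` at the finite point `x0`: there are a scale `lam t → 0`, a centre
`sig t → x0` and a sign `e` such that `lam^{1/2} u(t, lam y + sig)` tends to `e Q` weakly in
`H¹`. -/
def BlowsUpAt (T x0 : ℝ) (u du : ℝ → ℝ → ℝ) : Prop :=
  ∃ (lam sig : ℝ → ℝ) (e : ℝ), (e = 1 ∨ e = -1) ∧ (∀ t ∈ Ico 0 T, 0 < lam t) ∧
    Tendsto lam (𝓝[<] T) (𝓝 0) ∧ Tendsto sig (𝓝[<] T) (𝓝 x0) ∧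
    ∀ φ dφ : ℝ → ℝ, InH1 φ dφ → Tendsto (fun t => ∫ y,
      (√(lam t) * u t (lam t * y + sig t) * φ y +
        √(lam t) * (lam t * du t (lam t * y + sig t)) * dφ y))
      (𝓝[<] T) (𝓝 (e * ∫ y, (Q y * φ y + deriv Q y * dφ y)))

/-- The gradient norm is comparable with `(T - t)^{-ν}` near `T`. -/
def PowerRate (T ν : ℝ) (du : ℝ → ℝ → ℝ) : Prop :=
  ∃ c C : ℝ, 0 < c ∧ 0 < C ∧ ∀ᶠ t in 𝓝[<] T,
    c * (T - t) ^ (-ν) ≤ √(∫ x, du t x ^ 2) ∧ √(∫ x, du t x ^ 2) ≤ C * (T - t) ^ (-ν)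

/-- There is a blow-up residue in `H¹`: for some scale `lam`, centre `sig` and sign `e` (nothing
else is required of them) the remainder `u(t) - e lam^{-1/2} Q((· - sig)/lam)` tends in `L²`
to some `r ∈ H¹`. -/
def HasH1Residue (T : ℝ) (u : ℝ → ℝ → ℝ) : Prop :=
  ∃ (lam sig : ℝ → ℝ) (e : ℝ) (r dr : ℝ → ℝ), (e = 1 ∨ e = -1) ∧
    (∀ t ∈ Ico 0 T, 0 < lam t) ∧ InH1 r dr ∧
    Tendsto (fun t => ∫ x, (u t x - e * bubble (lam t) (sig t) x - r x) ^ 2) (𝓝[<] T) (𝓝 0)

open Pool.Agent.Helper44.Gkdv in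
/-- A solution that blows up at a finite point with a power rate `1/3 < ν < 3/7` has no blow-up
residue in `H¹`. -/
theorem result (ν : ℝ) (hν1 : 1 / 3 < ν) (hν2 : ν < 3 / 7) (T : ℝ) (hT : 0 < T) (x0 : ℝ)
    (u du : ℝ → ℝ → ℝ) (sol : EnergySol T u du) (hblow : BlowsUpAt T x0 u du)
    (hrate : PowerRate T ν du) : ¬ HasH1Residue T u := by
  have e1 : ∀ f g, InH1 f g → IsH1 f g := fun f g h => ⟨h.mem, h.mem', h.ftc⟩
  have e2 : ∀ f g, IsH1 f g → InH1 f g := fun f g h => ⟨h.mem, h.mem', h.ftc⟩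
  have sol' : H1Sol T u du := by
    refine ⟨fun t ht => e1 _ _ (sol.h1 t ht), fun τ hτ ε hε => ?_⟩
    obtain ⟨V, hV, hd⟩ := sol.approx τ hτ ε hε
    exact ⟨V, ⟨hV.smooth, hV.decay, hV.eqn⟩, hd⟩
  have hdQ : deriv Q = dQ := by
    funext x
    exact (hasDerivAt_Q x).deriv
  have fp : FinPt T x0 u du := by
    obtain ⟨lam, sig, e, he, hl, h1, h2, h3⟩ := hblow
    refine ⟨lam, sig, e, he, hl, h1, h2, fun φ dφ hφ => ?_⟩
    have := h3 φ dφ (e2 _ _ hφ)
    rw [hdQ] at this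
    exact this
  rintro ⟨lam, sig, e, r, dr, he, hl, hr, hconv⟩
  exact main hT hν1 hν2 sol' fp hrate ⟨lam, sig, e, r, dr, he, hl, e1 _ _ hr, hconv⟩

end Pool.Agent.Results.MP_ce6cf9_an.NoResidue
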